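import Pool.Agent.SPB.FinalC

/-!
# Banach spaces with a strict pi-basis and without a Schauder basis

For both scalar fields `ℝ` and `ℂ` there is a Banach space with a strict pi-basis (even a strict
`π₄`-basis) which has no Schauder basis.
-/

namespace Pool.Agent.Results.MP_57a847_an.StrictPiNoBasis

open Filter Topology

/-- `u` is a strict `π_lam`-basis: each `u n` is a bounded projection with range of dimension
exactly `n`, `u m ∘ u n = u n` for `n ≤ m`, the norms are at most `lam`, and `u n x → x` for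
every `x` (the index `0`, for which `u 0 = 0`, is added for convenience). -/
structure IsStrictPiBasis (𝕜 : Type) [RCLike 𝕜] {X : Type} [NormedAddCommGroup X]
    [NormedSpace 𝕜 X] (lam : ℝ) (u : ℕ → X →L[𝕜] X) : Prop where
  proj : ∀ n, u n ∘L u n = u n
  nested : ∀ m n, n ≤ m → u m ∘L u n = u n
  finite : ∀ n, FiniteDimensional 𝕜 (LinearMap.range (u n : X →ₗ[𝕜] X))
  dim : ∀ n, Module.finrank 𝕜 (LinearMap.range (u n : X →ₗ[𝕜] X)) = n
  norm_le : ∀ n, ‖u n‖ ≤ lam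
  tendsto : ∀ x, Tendsto (fun n => u n x) atTop (𝓝 x)

/-- `e` is a Schauder basis: every vector has exactly one norm convergent expansion. -/
def IsSchauderBasis (𝕜 : Type) [RCLike 𝕜] {X : Type} [NormedAddCommGroup X]
    [NormedSpace 𝕜 X] (e : ℕ → X) : Prop :=
  ∀ x, ∃! a : ℕ → 𝕜, Tendsto (fun n => ∑ i ∈ Finset.range n, a i • e i) atTop (𝓝 x)

theorem result :
    (∃ (X : Type) (_ : NormedAddCommGroup X) (_ : NormedSpace ℝ X) (_ : CompleteSpace X),
      (∃ u : ℕ → X →L[ℝ] X, IsStrictPiBasis ℝ 4 u) ∧ ¬ ∃ e : ℕ → X, IsSchauderBasis ℝ e) ∧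
    (∃ (X : Type) (_ : NormedAddCommGroup X) (_ : NormedSpace ℂ X) (_ : CompleteSpace X),
      (∃ u : ℕ → X →L[ℂ] X, IsStrictPiBasis ℂ 4 u) ∧ ¬ ∃ e : ℕ → X, IsSchauderBasis ℂ e) := by
  obtain ⟨⟨X, i1, i2, i3, ⟨u, h1, h2, h3, h4, h5⟩, h6⟩,
    ⟨Y, j1, j2, j3, ⟨v, k1, k2, k3, k4, k5⟩, k6⟩⟩ := SPB.answers_hold
  exact ⟨⟨X, i1, i2, i3, ⟨u, h1, h2, fun n => (h3 n).1, fun n => (h3 n).2, h4, h5⟩, h6⟩,
    ⟨Y, j1, j2, j3, ⟨v, k1, k2, fun n => (k3 n).1, fun n => (k3 n).2, k4, k5⟩, k6⟩⟩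

end Pool.Agent.Results.MP_57a847_an.StrictPiNoBasis
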